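import Pool.Agent.Hx88.NS.Pow

/-!
# The Tate conjecture for the products of powers of varieties with a nodal reduction with arbitrary
# varieties, and for their open subvarieties
-/

set_option autoImplicit false
set_option linter.unusedSectionVars false

open CategoryTheory AlgebraicGeometry
open scoped TensorProduct

universe u v w

namespace Pool.Agent.Hx88.NS

open Pool.Agent.H914 Pool.Agent.H914.VarClass Pool.Agent.H914.VarClass.Obj
  Pool.Agent.H914.WeilCohomology Pool.Agent.H281R3.HT Pool.Agent.TH125.Gal Pool.Agent.N179.TL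
  Pool.Agent.N179.FG Pool.Agent.N179.FO Pool.Agent.W552

variable {k : Type u} [Field k] {𝒱 : VarClass k} {ops : CycleOps 𝒱}
  {W : WeilCohomology.{u, v} ops} {Γ : Type w} [Group Γ] {χ : Γ →* W.Kˣ}
  {ι : Type} {X : ι → GVar W Γ} {Z : GVar W Γ} {U : AnyVar W Γ}

theorem PowTower.triv {S : Set ι} {Y : GVar W Γ} (h : PowTower X Z S Y) {g : Γ}
    (hX : ∀ j ∈ S, TrivAct (X j).act g) (hZ : TrivAct Z.act g) : TrivAct Y.act g := by
  induction h with
  | base => exact hZ
  | step i n _ _ _ hV hY ih =>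
    exact prod_triv hY (hV.triv (hX i (Set.mem_insert _ _)))
      (ih fun j hj => hX j (Set.mem_insert_of_mem _ hj))

/-- **The Tate conjecture for the products with an arbitrary variety.** -/
theorem tower_times (h : NodalOver χ X Z U) {S : Set ι} {Y : GVar W Γ} (hY : PowTower X Z S Y) :
    TateTimes χ Y U ↔ TateTimes χ Z U := by
  induction hY with
  | base => exact Iff.rfl
  | @step S Y V Y' i n hT hi hn hV hP ih =>
    obtain ⟨g, hPL, hχ, hZ, hU, hj⟩ := h.node i
    have hone : (1 : W.H (X i).X) ≠ 0 := by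
      obtain ⟨δ, hδ, hδ0, -⟩ := hPL
      intro h3
      apply hδ0
      rw [← one_mul δ, h3, zero_mul]
    have hYg : TrivAct Y.act g := hT.triv (fun j hjS => hj j fun h' => hi (h' ▸ hjS)) hZ
    obtain ⟨A, -, hA, hs⟩ := hV.splits (h.galois i) (h.homNum i) (h.middle i)
      (h.irreducible i) hPL hχ fun h' => ⟨h.few ⟨i, h'⟩, hn h'⟩
    obtain ⟨a, ha, ha0⟩ := hV.pt (h.homNum i) hone
    obtain ⟨υ, h1, h2⟩ := hP
    rw [← ih]
    exact ⟨conv_times ha ha0 h2,
      step_times h1 h2 hA (hs _ (sig Y U) (sig_one hYg (LinearMap.ext hU)))⟩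

/-- **The Tate conjecture for the open subvarieties.** -/
theorem tower_opens (h : NodalOver χ X Z U) (hX : ∀ i, PowersHomNum χ (X i))
    {S : Set ι} {Y : GVar W Γ} (hY : PowTower X Z S Y) (hd : CyclesDefined χ Y U) :
    TateOpens χ Y U ↔ TateOpens χ Z U := by
  induction hY with
  | base => exact Iff.rfl
  | @step S Y V Y' i n hT hi hn hV hP ih =>
    obtain ⟨g, hPL, hχ, hZ, hU, hj⟩ := h.node i
    have hone : (1 : W.H (X i).X) ≠ 0 := by
      obtain ⟨δ, hδ, hδ0, -⟩ := hPL
      intro h3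
      apply hδ0
      rw [← one_mul δ, h3, zero_mul]
    have hK : Even (X i).X.dim → FewRoots W.K ∧ n + 1 < transRank W (X i).X :=
      fun h' => ⟨h.few ⟨i, h'⟩, hn h'⟩
    have hYg : TrivAct Y.act g := hT.triv (fun j hjS => hj j fun h' => hi (h' ▸ hjS)) hZ
    obtain ⟨A, hA', hA, hs⟩ := hV.splits (h.galois i) (h.homNum i) (h.middle i)
      (h.irreducible i) hPL hχ hK
    obtain ⟨a, ha, ha0⟩ := hV.pt (h.homNum i) hone
    obtain ⟨hGV, hDV⟩ := hX i n V hV
    obtain ⟨υ, h1, h2⟩ := hP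
    rw [← ih (defined_snd' ha0 h2 hd)]
    exact ⟨conv_opens ha ha0 h2,
      step_opens hDV (isGalois hGV) h1 h2 hA' (hs _ (sig Y U) (sig_one hYg (LinearMap.ext hU))) hd⟩

end Pool.Agent.Hx88.NS
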