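import Pool.Agent.TH125.Gal.Pub2
import Pool.Agent.N179.FO.Defs

/-!
# Towers of products of powers of varieties with a nodal reduction, relative to an arbitrary variety:
# definitions
-/

set_option autoImplicit false

open CategoryTheory AlgebraicGeometry TensorProduct

universe u v w

namespace Pool.Agent.Hx88.NS

open Pool.Agent.H914 Pool.Agent.H914.VarClass Pool.Agent.H914.VarClass.Obj
  Pool.Agent.H914.WeilCohomology Pool.Agent.H281R3.HT Pool.Agent.TH125.Gal Pool.Agent.N179.FO
  Pool.Agent.W552

section Alg

variable {K : Type*} [Field K] {A : Type*} [Ring A] [Algebra K A]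

/-- The dimension of the subspace `T` is larger than `n`. -/
def LargeSub (T : Submodule K A) (n : ℕ) : Prop := n < Module.finrank K T

/-- The subspace `T` is contained in the subspace `gr n`. -/
def InDeg (T : Submodule K A) (gr : ℕ → Submodule K A) (n : ℕ) : Prop := T ≤ gr n

/-- The element `g` acts trivially on `M`. -/
def TrivLin {K : Type v} [Field K] {M : Type v} [AddCommGroup M] [Module K M] {Γ : Type w}
    [Group Γ] (τ : LinAct K M Γ) (g : Γ) : Prop := ∀ m : M, τ g m = m

end Alg

variable {k : Type u} [Field k] {𝒱 : VarClass k} {ops : CycleOps 𝒱}
  {W : WeilCohomology.{u, v} ops} {Γ : Type w} [Group Γ]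

/-- `V` is the product `X × (X × ( ⋯ × X))` of `n + 1` copies of `X`, with actions on the cohomology
which are compatible with the projections. -/
inductive IsPower (X : GVar W Γ) : ℕ → GVar W Γ → Prop
  | one : IsPower X 0 X
  | succ {n : ℕ} {V V' : GVar W Γ} : IsPower X n V → IsProdVar X V V' → IsPower X (n + 1) V'

/-- The dimension of the transcendental cohomology of `X` is larger than `n`. -/
def LargeT (X : GVar W Γ) (n : ℕ) : Prop := LargeSub (transcendental W X.X) n

/-- The varieties `Y = X_1^(n_1) × (X_2^(n_2) × ( ⋯ × Z))`, where the `X_i` are pairwise different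
members of the family `X` (`S` is the set of the indices which are used), with actions on the
cohomology which are compatible with the projections, where `n_i` is less than the dimension of the
transcendental cohomology of `X_i` if the dimension of `X_i` is even. -/
inductive PowTower {ι : Type} (X : ι → GVar W Γ) (Z : GVar W Γ) : Set ι → GVar W Γ → Prop
  | base : PowTower X Z ∅ Z
  | step {S : Set ι} {Y V Y' : GVar W Γ} (i : ι) (n : ℕ) : PowTower X Z S Y → i ∉ S →
      (Even (X i).X.dim → LargeT (X i) (n + 1)) → IsPower (X i) n V →
      IsProdVar V Y Y' → PowTower X Z (insert i S) Y'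

/-- Homological and numerical equivalence coincide for `X`. -/
def HomNum (X : GVar W Γ) : Prop := HomEqNum W X.X

/-- The transcendental cohomology of `X` is in the middle degree. -/
def MiddleT (X : GVar W Γ) : Prop := InDeg (transcendental W X.X) (W.gr X.X) X.X.dim

/-- The transcendental cohomology of `X` is irreducible under all subgroups of finite index. -/
def IrredT (X : GVar W Γ) : Prop := IrredAct X.act (transcendental W X.X)

/-- `g` acts trivially on the cohomology of `U`. -/
def TrivOn (U : AnyVar W Γ) (g : Γ) : Prop := TrivLin U.act g

/-- `Γ` acts on the cohomology of the varieties `X i` like a Galois group; their transcendental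
cohomology is in the middle degree and irreducible under all subgroups of finite index; numerical
and homological equivalence coincide for them; for every `i` there is an element of `Γ` which acts
on the transcendental cohomology of `X i` by a Picard-Lefschetz formula, and trivially on the
cohomology of `Z`, of `U` and of the other `X j`, and by `χ`; if some `X i` has even dimension the
coefficient field contains only finitely many `ζ + ζ⁻¹`, `ζ` a root of unity. -/
structure NodalOver (χ : Γ →* W.Kˣ) {ι : Type} (X : ι → GVar W Γ) (Z : GVar W Γ)
    (U : AnyVar W Γ) : Prop where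
  galois : ∀ i, IsGaloisVar χ (X i)
  homNum : ∀ i, HomNum (X i)
  middle : ∀ i, MiddleT (X i)
  irreducible : ∀ i, IrredT (X i)
  node : ∀ i, ∃ g : Γ, PLVar (X i) g ∧ χ g = 1 ∧ TrivVar Z g ∧ TrivOn U g ∧
    ∀ j, j ≠ i → TrivVar (X j) g
  few : (∃ i, Even (X i).X.dim) → FewRoots W.K

/-- `Γ` acts on the cohomology of the powers of `X` like a Galois group, and numerical and
homological equivalence coincide for the powers of `X`. -/
def PowersHomNum (χ : Γ →* W.Kˣ) (X : GVar W Γ) : Prop :=
  ∀ n V, IsPower X n V → IsGaloisVar χ V ∧ HomNum V

end Pool.Agent.Hx88.NS
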