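import Pool.Agent.Hx88.NS.Step

/-!
# One step for the open subvarieties, and the converse
-/

set_option autoImplicit false
set_option linter.unusedSectionVars false

open CategoryTheory AlgebraicGeometry
open scoped TensorProduct

universe u v w

namespace Pool.Agent.Hx88.NS

open Pool.Agent.H914 Pool.Agent.H914.VarClass Pool.Agent.H914.VarClass.Obj
  Pool.Agent.H914.WeilCohomology Pool.Agent.H281R3.HT Pool.Agent.TH125.Gal Pool.Agent.N179.TL
  Pool.Agent.N179.FG Pool.Agent.N179.FO Pool.Agent.W552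

variable {k : Type u} [Field k] {𝒱 : VarClass k} {ops : CycleOps 𝒱}
  {W : WeilCohomology.{u, v} ops} {Γ : Type w} [Group Γ] {χ : Γ →* W.Kˣ}

theorem pT_pT {X : GVar W Γ} (hDX : HomEqNum W X.X) (x : W.H X.X) :
    pT hDX (pT hDX x) = pT hDX x :=
  Submodule.projection_apply_of_mem_left _ (pT_mem hDX x)

section

variable {X : GVar W Γ} {N : Type v} [AddCommGroup N] [Module W.K N]

theorem ctrN_rTensor (f : W.H X.X →ₗ[W.K] W.H X.X) (ψ : Module.Dual W.K N)
    (d : W.H X.X ⊗[W.K] N) : ctrN ψ (f.rTensor N d) = f (ctrN ψ d) := by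
  induction d using TensorProduct.induction_on with
  | zero => simp
  | tmul a y => rw [LinearMap.rTensor_tmul, ctrN_tmul, ctrN_tmul, map_smul]
  | add x y hx hy => rw [map_add, map_add, map_add, map_add, hx, hy]

/-- an element with trivial contractions is zero -/
theorem eq_zero_of_ctrN {d : W.H X.X ⊗[W.K] N} (h : ∀ ψ : Module.Dual W.K N, ctrN ψ d = 0) :
    d = 0 := by
  have h1 := expandF (Module.finBasis W.K (W.H X.X)) d
  rw [h1]
  refine Finset.sum_eq_zero fun r _ => ?_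
  have h2 : ctrF ((Module.finBasis W.K (W.H X.X)).coord r) d = 0 := by
    refine (Module.forall_dual_apply_eq_zero_iff W.K _).1 fun ψ => ?_
    have h3 : ∀ e : W.H X.X ⊗[W.K] N, ψ (ctrF ((Module.finBasis W.K (W.H X.X)).coord r) e) =
        (Module.finBasis W.K (W.H X.X)).coord r (ctrN ψ e) := by
      intro e
      induction e using TensorProduct.induction_on with
      | zero => simp
      | tmul a y => rw [ctrF_tmul, ctrN_tmul, map_smul, map_smul, smul_eq_mul, smul_eq_mul,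
          mul_comm]
      | add x y hx hy => rw [map_add, map_add, map_add, map_add, hx, hy]
    rw [h3, h ψ, map_zero]
  rw [h2, TensorProduct.tmul_zero]

theorem ctrN_mem {A : Set (W.H X.X)} (hA : A ⊆ algSpan W X.X) {d : W.H X.X ⊗[W.K] N}
    (hd : d ∈ Submodule.span W.K {x : W.H X.X ⊗[W.K] N | ∃ m ∈ A, ∃ w : N, x = m ⊗ₜ[W.K] w})
    (ψ : Module.Dual W.K N) : ctrN ψ d ∈ algSpan W X.X := by
  induction hd using Submodule.span_induction with
  | mem x hx =>
    obtain ⟨m, hm, w, rfl⟩ := hx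
    rw [ctrN_tmul]
    exact Submodule.smul_mem _ _ (hA hm)
  | zero => rw [map_zero]; exact Submodule.zero_mem _
  | add x y _ _ hx hy => rw [map_add]; exact Submodule.add_mem _ hx hy
  | smul q x _ hx => rw [map_smul]; exact Submodule.smul_mem _ _ hx

/-- **The contractions of an element which is semi-invariant up to elements with algebraic
contractions are algebraic.** -/
theorem split_opens (hDX : HomEqNum W X.X) (hG : IsGalois W χ X.X X.act) {A : Set (W.H X.X)}
    (hA : A ⊆ algSpan W X.X) {σ : Γ →* (N →ₗ[W.K] N)} (hs : Splits χ X A σ)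
    {d : W.H X.X ⊗[W.K] N} {j : ℕ} {Δ : Subgroup Γ} (hΔ : Δ.FiniteIndex)
    (hd : ∀ g ∈ Δ, ∀ ψ : Module.Dual W.K N, pT hDX
      (ctrN ψ (TensorProduct.map (X.act g).toLinearMap (σ g) d - (χ g : W.K) ^ j • d)) = 0)
    (ψ : Module.Dual W.K N) : pT hDX (ctrN ψ d) = 0 := by
  have h1 : ∀ g ∈ Δ, TensorProduct.map (X.act g).toLinearMap (σ g) ((pT hDX).rTensor N d) =
      (χ g : W.K) ^ j • (pT hDX).rTensor N d := by
    intro g hg
    have h2 : TensorProduct.map (X.act g).toLinearMap (σ g) ((pT hDX).rTensor N d) =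
        (pT hDX).rTensor N (TensorProduct.map (X.act g).toLinearMap (σ g) d) := by
      have h3 : TensorProduct.map (X.act g).toLinearMap (σ g) ∘ₗ (pT hDX).rTensor N =
          (pT hDX).rTensor N ∘ₗ TensorProduct.map (X.act g).toLinearMap (σ g) := by
        refine TensorProduct.ext' fun a y => ?_
        rw [LinearMap.comp_apply, LinearMap.comp_apply, LinearMap.rTensor_tmul,
          TensorProduct.map_tmul, TensorProduct.map_tmul, LinearMap.rTensor_tmul]
        change X.act g (pT hDX a) ⊗ₜ[W.K] σ g y = pT hDX (X.act g a) ⊗ₜ[W.K] σ g y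
        rw [pT_act hDX hG]
      exact LinearMap.congr_fun h3 d
    rw [h2, ← map_smul, ← sub_eq_zero, ← map_sub]
    refine eq_zero_of_ctrN fun ψ => ?_
    rw [ctrN_rTensor]
    exact hd g hg ψ
  have h4 := ctrN_mem hA (hs _ j Δ hΔ h1) ψ
  rw [ctrN_rTensor] at h4
  rw [← pT_pT]
  exact (pT_eq_zero hDX).2 h4

end

section

variable {V Y : GVar W Γ} {U : AnyVar W Γ}
  {υ : Γ →* (W.H (V.X.prod Y.X) ≃ₐ[W.K] W.H (V.X.prod Y.X))}

theorem contract' (hDX : HomEqNum W V.X) (hG : IsGalois W χ V.X V.act)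
    (h1 : Intertwines (W.map (fst V.X Y.X)) V.act υ)
    (h2 : Intertwines (W.map (snd V.X Y.X)) Y.act υ) {A : Set (W.H V.X)}
    (hA : A ⊆ algSpan W V.X) (hs : Splits χ V A (sig Y U))
    {j : ℕ} {R : Submodule W.K (W.H (V.X.prod Y.X) ⊗[W.K] U.M)}
    (hR : ∀ z ∈ R, ∀ ψ : Module.Dual W.K (W.H Y.X ⊗[W.K] U.M),
      pT hDX (ctrN ψ (theta W V.X Y.X U.M z)) = 0)
    {c : W.H (V.X.prod Y.X) ⊗[W.K] U.M} {Δ : Subgroup Γ} (hΔ : Δ.FiniteIndex)
    (hc : ∀ g ∈ Δ, tact υ U.act g c - (χ g : W.K) ^ j • c ∈ R)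
    (ψ : Module.Dual W.K (W.H Y.X ⊗[W.K] U.M)) :
    pT hDX (ctrN ψ (theta W V.X Y.X U.M c)) = 0 := by
  refine split_opens hDX hG hA hs hΔ (j := j) (fun g hg φ => ?_) ψ
  have h3 : TensorProduct.map (V.act g).toLinearMap (sig Y U g) (theta W V.X Y.X U.M c) -
      (χ g : W.K) ^ j • theta W V.X Y.X U.M c =
      theta W V.X Y.X U.M (tact υ U.act g c - (χ g : W.K) ^ j • c) := by
    rw [map_sub, map_smul, theta_act h1 h2]
    rfl
  rw [h3]
  exact hR _ (hc g hg) φ

/-- **One step for the open subvarieties.** -/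
theorem step_opens (hDX : HomEqNum W V.X) (hG : IsGalois W χ V.X V.act)
    (h1 : Intertwines (W.map (fst V.X Y.X)) V.act υ)
    (h2 : Intertwines (W.map (snd V.X Y.X)) Y.act υ) {A : Set (W.H V.X)}
    (hA : A ⊆ algSpan W V.X) (hs : Splits χ V A (sig Y U))
    (hd : CyclesDefined χ (⟨V.X.prod Y.X, υ⟩ : GVar W Γ) U) (hT : TateOpens χ Y U) :
    TateOpens χ (⟨V.X.prod Y.X, υ⟩ : GVar W Γ) U := by
  obtain ⟨s⟩ := exists_SB hDX
  obtain ⟨Δ', hΔ', hfix⟩ := exists_fix hG s
  rintro j c hcj ⟨Δ, hΔ, hc⟩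
  have hR : ∀ z ∈ U.cyc (V.X.prod Y.X) j, ∀ ψ : Module.Dual W.K (W.H Y.X ⊗[W.K] U.M),
      pT hDX (ctrN ψ (theta W V.X Y.X U.M z)) = 0 := by
    intro z hz ψ
    obtain ⟨Δ₁, hΔ₁, h3⟩ := hd j z hz
    refine contract' hDX hG h1 h2 hA hs (R := ⊥) (j := j) (fun z hz ψ => ?_) hΔ₁
      (fun g hg => ?_) ψ
    · rw [(Submodule.mem_bot _).1 hz, map_zero, map_zero, map_zero]
    · rw [Submodule.mem_bot, sub_eq_zero]
      exact h3 g hg
  have hK := contract' hDX hG h1 h2 hA hs hR hΔ hc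
  rw [expandM s c, Fintype.sum_sum_type]
  refine Submodule.add_mem _ (Submodule.sum_mem _ fun l _ => ?_)
    (Submodule.sum_mem _ fun i _ => ?_)
  swap
  · rw [KM_inr hDX s i hK, map_zero, map_zero]
    exact Submodule.zero_mem _
  have hdeg := KM_deg s l hcj
  by_cases hjl : s.jC l ≤ j
  · rw [if_pos (by omega), show 2 * j - 2 * s.jC l = 2 * (j - s.jC l) by omega] at hdeg
    have hx : KM s Y.X U.M (Sum.inl l) c ∈ U.cyc Y.X (j - s.jC l) := by
      refine hT _ _ hdeg ⟨Δ ⊓ Δ', inferInstance, fun g hg => ?_⟩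
      have h3 := KM_cyc s l hjl (hc g hg.1)
      rw [map_sub, map_smul] at h3
      have h3' : (KM s Y.X U.M (Sum.inl l)) ((tact υ U.act g) c) - (χ g : W.K) ^ j •
          (KM s Y.X U.M (Sum.inl l)) c ∈ U.cyc Y.X (j - s.jC l) := h3
      rw [KM_act hG h1 h2 s l (hfix g hg.2)] at h3'
      have h4 : (χ g : W.K) ^ j = (χ g : W.K) ^ s.jC l * (χ g : W.K) ^ (j - s.jC l) := by
        rw [← pow_add, Nat.add_sub_cancel' hjl]
      rw [h4, mul_smul] at h3'
      refine (Submodule.smul_mem_iff _ (pow_ne_zero (s.jC l) (Units.ne_zero (χ g)))).1 ?_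
      rw [smul_sub]
      exact h3'
    have h5 := mul_span (U := U) (map_span (fst V.X Y.X) (Submodule.subset_span (s.alg l)))
      (U.pull (snd V.X Y.X) _ _ hx)
    rw [Nat.add_sub_cancel' hjl] at h5
    rw [s.e_inl]
    exact h5
  · rw [if_neg (by omega), Submodule.mem_bot] at hdeg
    rw [hdeg, map_zero, map_zero]
    exact Submodule.zero_mem _

theorem push_mul_snd (a : W.H V.X) (c : W.H Y.X ⊗[W.K] U.M) :
    (W.push (snd V.X Y.X)).rTensor U.M ((LinearMap.mulLeft W.K (W.map (fst V.X Y.X) a)).rTensor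
      U.M ((W.map (snd V.X Y.X)).toLinearMap.rTensor U.M c)) = W.tr V.X a • c := by
  induction c using TensorProduct.induction_on with
  | zero => simp
  | tmul y m =>
    rw [LinearMap.rTensor_tmul, LinearMap.rTensor_tmul, LinearMap.rTensor_tmul]
    change W.push (snd V.X Y.X) (W.map (fst V.X Y.X) a * W.map (snd V.X Y.X) y) ⊗ₜ m = _
    rw [W.push_snd, TensorProduct.smul_tmul']
  | add x y hx hy => rw [map_add, map_add, map_add, hx, hy, smul_add]

theorem snd_act (h2 : Intertwines (W.map (snd V.X Y.X)) Y.act υ) (g : Γ)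
    (c : W.H Y.X ⊗[W.K] U.M) :
    tact υ U.act g ((W.map (snd V.X Y.X)).toLinearMap.rTensor U.M c) =
      (W.map (snd V.X Y.X)).toLinearMap.rTensor U.M (tact Y.act U.act g c) := by
  induction c using TensorProduct.induction_on with
  | zero => simp
  | tmul y m =>
    unfold tact
    rw [LinearMap.rTensor_tmul, TensorProduct.map_tmul, TensorProduct.map_tmul,
      LinearMap.rTensor_tmul]
    change υ g (W.map (snd V.X Y.X) y) ⊗ₜ U.act g m = _
    rw [h2 g]
    rfl
  | add x y hx hy => rw [map_add, map_add, map_add, map_add, hx, hy]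

/-- The converse. -/
theorem conv' {a : W.H V.X} (ha : a ∈ Submodule.span W.K (algClasses W V.X V.X.dim))
    (ha0 : W.tr V.X a ≠ 0) (h2 : Intertwines (W.map (snd V.X Y.X)) Y.act υ)
    {R : ℕ → Submodule W.K (W.H (V.X.prod Y.X) ⊗[W.K] U.M)}
    {R' : ℕ → Submodule W.K (W.H Y.X ⊗[W.K] U.M)}
    (hR : ∀ j, ∀ z ∈ R' j, (W.map (snd V.X Y.X)).toLinearMap.rTensor U.M z ∈ R j)
    (hT : TateAct χ (W.gr (V.X.prod Y.X)) U.gr υ U.act R (U.cyc (V.X.prod Y.X))) :
    TateAct χ (W.gr Y.X) U.gr Y.act U.act R' (U.cyc Y.X) := by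
  rintro j c hcj ⟨Δ, hΔ, hc⟩
  have h3 : (W.map (snd V.X Y.X)).toLinearMap.rTensor U.M c ∈
      tensDeg (W.gr (V.X.prod Y.X)) U.gr (2 * j) := by
    clear hc
    induction hcj using Submodule.span_induction with
    | mem c hc =>
      obtain ⟨a, b, hab, x, hx, y, hy, rfl⟩ := hc
      rw [LinearMap.rTensor_tmul]
      exact Submodule.subset_span ⟨a, b, hab, _, W.map_mem _ hx, y, hy, rfl⟩
    | zero => rw [map_zero]; exact Submodule.zero_mem _
    | add x y _ _ hx hy => rw [map_add]; exact Submodule.add_mem _ hx hy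
    | smul q x _ hx => rw [map_smul]; exact Submodule.smul_mem _ _ hx
  have h4 := hT j _ h3 ⟨Δ, hΔ, fun g hg => by
    rw [snd_act h2, ← map_smul, ← map_sub]
    exact hR j _ (hc g hg)⟩
  have h5 := U.push V.X Y.X j _ (mul_span (U := U) (map_span (fst V.X Y.X) ha) h4)
  rw [push_mul_snd] at h5
  exact (Submodule.smul_mem_iff _ ha0).1 h5

theorem conv_times {a : W.H V.X} (ha : a ∈ Submodule.span W.K (algClasses W V.X V.X.dim))
    (ha0 : W.tr V.X a ≠ 0) (h2 : Intertwines (W.map (snd V.X Y.X)) Y.act υ)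
    (hT : TateTimes χ (⟨V.X.prod Y.X, υ⟩ : GVar W Γ) U) : TateTimes χ Y U :=
  conv' ha ha0 h2 (fun j z hz => by
    rw [(Submodule.mem_bot _).1 hz, map_zero]
    exact Submodule.zero_mem _) hT

theorem conv_opens {a : W.H V.X} (ha : a ∈ Submodule.span W.K (algClasses W V.X V.X.dim))
    (ha0 : W.tr V.X a ≠ 0) (h2 : Intertwines (W.map (snd V.X Y.X)) Y.act υ)
    (hT : TateOpens χ (⟨V.X.prod Y.X, υ⟩ : GVar W Γ) U) : TateOpens χ Y U :=
  conv' ha ha0 h2 (fun j z hz => U.pull _ _ _ hz) hT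

theorem defined_snd' {a : W.H V.X} (ha0 : W.tr V.X a ≠ 0)
    (h2 : Intertwines (W.map (snd V.X Y.X)) Y.act υ)
    (hd : CyclesDefined χ (⟨V.X.prod Y.X, υ⟩ : GVar W Γ) U) : CyclesDefined χ Y U := by
  intro j c hc
  obtain ⟨Δ, hΔ, h3⟩ := hd j _ (U.pull (snd V.X Y.X) _ _ hc)
  refine ⟨Δ, hΔ, fun g hg => ?_⟩
  have h4 := h3 g hg
  change tact υ U.act g _ = _ at h4
  rw [snd_act h2, ← map_smul] at h4
  have h5 := congrArg (fun z => (W.push (snd V.X Y.X)).rTensor U.M ((LinearMap.mulLeft W.K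
    (W.map (fst V.X Y.X) a)).rTensor U.M z)) h4
  beta_reduce at h5
  rw [push_mul_snd, push_mul_snd] at h5
  exact smul_right_injective _ ha0 h5

end

end Pool.Agent.Hx88.NS
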