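import Pool.Agent.TH125.Gal.Hml
import Pool.Agent.N179.FO.Defs

/-!
# The multilinear map given by an element of a tensor product with the cohomology of a power
-/

set_option autoImplicit false
set_option linter.unusedSectionVars false

open CategoryTheory AlgebraicGeometry Finset
open scoped TensorProduct

universe u v w

namespace Pool.Agent.Hx88.NS

open Pool.Agent.H914 Pool.Agent.H914.VarClass Pool.Agent.H914.VarClass.Obj
  Pool.Agent.H914.WeilCohomology Pool.Agent.H281R3.HT Pool.Agent.W552 Pool.Agent.TH125.Gal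

variable {k : Type u} [Field k] {𝒱 : VarClass k} {ops : CycleOps 𝒱}
  {W : WeilCohomology.{u, v} ops}

section

variable {K : Type v} [Field K] {A N : Type v} [AddCommGroup A] [Module K A] [AddCommGroup N]
  [Module K N]

/-- contraction with a linear form on the first factor -/
noncomputable def ctrF (φ : A →ₗ[K] K) : A ⊗[K] N →ₗ[K] N :=
  (TensorProduct.lid K N).toLinearMap ∘ₗ φ.rTensor N

theorem ctrF_tmul (φ : A →ₗ[K] K) (a : A) (y : N) : ctrF φ (a ⊗ₜ[K] y) = φ a • y := by
  change TensorProduct.lid K N (φ.rTensor N (a ⊗ₜ[K] y)) = _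
  rw [LinearMap.rTensor_tmul, TensorProduct.lid_tmul]

/-- Expansion in a basis of the first factor. -/
theorem expandF {R : Type*} [Fintype R] (b : Module.Basis R K A) (d : A ⊗[K] N) :
    d = ∑ r, b r ⊗ₜ[K] ctrF (b.coord r) d := by
  induction d using TensorProduct.induction_on with
  | zero => simp
  | tmul a y =>
    conv_lhs => rw [← b.sum_repr a, TensorProduct.sum_tmul]
    refine Finset.sum_congr rfl fun r _ => ?_
    rw [ctrF_tmul, TensorProduct.tmul_smul, TensorProduct.smul_tmul']
    rfl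
  | add x y hx hy =>
    conv_lhs => rw [hx, hy, ← Finset.sum_add_distrib]
    refine Finset.sum_congr rfl fun r _ => ?_
    rw [map_add, TensorProduct.tmul_add]

end

section

variable {P : Polarized 𝒱} {J : Type} [Fintype J] {e : Module.Basis J W.K (W.H P.X)} {n : ℕ}
  {b : Module.Basis (Fin (n + 1) → J) W.K (W.H (nest ops n fun _ => P).X)}
  (hb : ∀ r, b r = mono (prj ops n fun _ => P) fun p => e (r p))
  {N : Type v} [AddCommGroup N] [Module W.K N]

/-- the multilinear map of an element of the tensor product -/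
noncomputable def hmlN (e : Module.Basis J W.K (W.H P.X))
    (b : Module.Basis (Fin (n + 1) → J) W.K (W.H (nest ops n fun _ => P).X))
    (d : W.H (nest ops n fun _ => P).X ⊗[W.K] N) :
    MultilinearMap W.K (fun _ : Fin (n + 1) => W.H P.X) N :=
  ∑ r, ((MultilinearMap.mkPiAlgebra W.K (Fin (n + 1)) W.K).compLinearMap
    fun p => (bil W P.X).flip (e (r p))).smulRight (ctrF (b.coord r) d)

include hb in
theorem hmlN_eq (d : W.H (nest ops n fun _ => P).X ⊗[W.K] N) (v : Fin (n + 1) → W.H P.X) :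
    hmlN e b d v = ctrF (phi e b fun p => bil W P.X (v p)) d := by
  conv_rhs => rw [expandF b d]
  rw [map_sum, hmlN, _root_.sum_apply]
  refine Finset.sum_congr rfl fun r _ => ?_
  rw [ctrF_tmul, hb r, phi_mono hb]
  rfl

include hb in
/-- the multilinear map of a pure tensor -/
theorem hmlN_mono (a : Fin (n + 1) → W.H P.X) (y : N) (v : Fin (n + 1) → W.H P.X) :
    hmlN e b (mono (prj ops n fun _ => P) a ⊗ₜ[W.K] y) v = (∏ p, bil W P.X (v p) (a p)) • y := by
  rw [hmlN_eq hb, ctrF_tmul, phi_mono hb]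

include hb in
theorem hmlN_smul (x : W.K) (d : W.H (nest ops n fun _ => P).X ⊗[W.K] N)
    (v : Fin (n + 1) → W.H P.X) : hmlN e b (x • d) v = x • hmlN e b d v := by
  rw [hmlN_eq hb, hmlN_eq hb, map_smul]

include hb in
theorem hmlN_sum {R : Type*} (s : Finset R) (d : R → W.H (nest ops n fun _ => P).X ⊗[W.K] N)
    (v : Fin (n + 1) → W.H P.X) : hmlN e b (∑ r ∈ s, d r) v = ∑ r ∈ s, hmlN e b (d r) v := by
  rw [hmlN_eq hb, map_sum]
  exact Finset.sum_congr rfl fun r _ => (hmlN_eq hb _ _).symm

/-- the action on monomials -/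
theorem act_mono {ρ : W.H P.X ≃ₐ[W.K] W.H P.X}
    {ν : W.H (nest ops n fun _ => P).X ≃ₐ[W.K] W.H (nest ops n fun _ => P).X}
    (h1 : ∀ p a, ν (W.map (prj ops n (fun _ => P) p) a) =
      W.map (prj ops n (fun _ => P) p) (ρ a)) (a : Fin (n + 1) → W.H P.X) :
    ν (mono (prj ops n fun _ => P) a) = mono (prj ops n fun _ => P) fun p => ρ (a p) := by
  rw [mono, mono, map_list_prod, List.map_ofFn]
  congr 2
  funext p
  exact h1 p (a p)

include hb in
/-- **equivariance** -/
theorem hmlN_equiv {ρ : W.H P.X ≃ₐ[W.K] W.H P.X} {τ : N →ₗ[W.K] N}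
    {ν : W.H (nest ops n fun _ => P).X ≃ₐ[W.K] W.H (nest ops n fun _ => P).X}
    {x : W.K} (hρ : ∀ a b, bil W P.X (ρ a) (ρ b) = x * bil W P.X a b)
    (h1 : ∀ p a, ν (W.map (prj ops n (fun _ => P) p) a) =
      W.map (prj ops n (fun _ => P) p) (ρ a))
    (d : W.H (nest ops n fun _ => P).X ⊗[W.K] N) (v : Fin (n + 1) → W.H P.X) :
    hmlN e b (TensorProduct.map ν.toLinearMap τ d) (fun p => ρ (v p)) =
      x ^ (n + 1) • τ (hmlN e b d v) := by
  conv_lhs => rw [expandF b d]
  conv_rhs => rw [expandF b d]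
  rw [map_sum, hmlN_sum hb, hmlN_sum hb, map_sum, Finset.smul_sum]
  refine Finset.sum_congr rfl fun r _ => ?_
  rw [TensorProduct.map_tmul, hb r]
  have h2 : ν.toLinearMap (mono (prj ops n fun _ => P) fun p => e (r p)) =
      mono (prj ops n fun _ => P) fun p => ρ (e (r p)) := act_mono h1 _
  rw [h2, hmlN_mono hb, hmlN_mono hb, map_smul, smul_smul]
  congr 1
  simp only [hρ]
  rw [Finset.prod_mul_distrib, Finset.prod_const, Finset.card_univ, Fintype.card_fin]

end

end Pool.Agent.Hx88.NS
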