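import Pool.Agent.TH125.Gal.Str
import Pool.Agent.Hx88.NS.Hml

/-!
# The structure of the semi-invariant elements of the tensor product of the cohomology of a power
# with an arbitrary module
-/

set_option autoImplicit false
set_option linter.unusedSectionVars false

open CategoryTheory AlgebraicGeometry Finset
open scoped TensorProduct

universe u v w

namespace Pool.Agent.Hx88.NS

open Pool.Agent.H914 Pool.Agent.H914.VarClass Pool.Agent.H914.VarClass.Obj
  Pool.Agent.H914.WeilCohomology Pool.Agent.H281R3.HT Pool.Agent.W552 Pool.Agent.TH125.Gal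

variable {k : Type u} [Field k] {𝒱 : VarClass k} {ops : CycleOps 𝒱}
  {W : WeilCohomology.{u, v} ops} {N : Type v} [AddCommGroup N] [Module W.K N]

/-- the twist of an action -/
noncomputable def twistN {Γ : Type w} [Group Γ] (lam : Γ →* W.Kˣ)
    (σ : Γ →* (N →ₗ[W.K] N)) : Γ →* (N →ₗ[W.K] N) where
  toFun g := (lam g : W.K) • σ g
  map_one' := by
    rw [map_one, map_one, Units.val_one, one_smul]
  map_mul' g g' := by
    apply LinearMap.ext
    intro x
    rw [map_mul, map_mul, Units.val_mul]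
    change ((lam g : W.K) * (lam g' : W.K)) • σ g (σ g' x) =
      (lam g : W.K) • σ g ((lam g' : W.K) • σ g' x)
    rw [map_smul, smul_smul]

theorem twistN_apply {Γ : Type w} [Group Γ] (lam : Γ →* W.Kˣ)
    (σ : Γ →* (N →ₗ[W.K] N)) (g : Γ) (x : N) :
    twistN lam σ g x = (lam g : W.K) • σ g x := rfl

section

variable {P : Polarized 𝒱} {n : ℕ} {s : SB W P.X}
  {b : Module.Basis (Fin (n + 1) → Fin s.NC ⊕ Fin s.NT) W.K (W.H (nest ops n fun _ => P).X)}
  (hb : ∀ r, b r = mono (prj ops n fun _ => P) fun p => s.e (r p))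

include hb in
/-- the coordinates -/
theorem coordN_eq (c : W.H (nest ops n fun _ => P).X ⊗[W.K] N)
    (r : Fin (n + 1) → Fin s.NC ⊕ Fin s.NT) :
    ctrF (b.coord r) c = hmlN s.e b c fun p => s.es (r p) := by
  rw [hmlN_eq hb]
  congr 2
  refine b.ext fun r' => ?_
  rw [Module.Basis.coord_apply, Module.Basis.repr_self]
  conv_rhs => rw [hb r', phi_mono hb]
  by_cases h : r' = r
  · subst h
    rw [Finsupp.single_eq_same]
    symm
    refine Finset.prod_eq_one fun p _ => ?_
    rw [s.es_e, if_pos rfl]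
  · rw [Finsupp.single_eq_of_ne (Ne.symm h)]
    obtain ⟨p, hp⟩ := Function.ne_iff.1 h
    symm
    refine Finset.prod_eq_zero (Finset.mem_univ p) ?_
    rw [s.es_e, if_neg hp]

/-- the multilinear map on the transcendental part at the free positions -/
noncomputable def hSN (s : SB W P.X)
    (b : Module.Basis (Fin (n + 1) → Fin s.NC ⊕ Fin s.NT) W.K (W.H (nest ops n fun _ => P).X))
    (c : W.H (nest ops n fun _ => P).X ⊗[W.K] N) (c₀ : Fin (n + 1) → Option (Fin s.NC)) :
    MultilinearMap W.K (fun _ : Free c₀ => transcendental W P.X) N :=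
  ((hmlN s.e b c).domDomRestrict (fun p => c₀ p = none) (fixv s c₀)).compLinearMap
    fun _ => (transcendental W P.X).subtype

theorem hSN_apply (c : W.H (nest ops n fun _ => P).X ⊗[W.K] N)
    (c₀ : Fin (n + 1) → Option (Fin s.NC)) (v : Free c₀ → transcendental W P.X) :
    hSN s b c c₀ v = hmlN s.e b c
      fun p => if h : c₀ p = none then (v ⟨p, h⟩ : W.H P.X) else fixv s c₀ ⟨p, h⟩ := rfl

theorem hSN_comb (c : W.H (nest ops n fun _ => P).X ⊗[W.K] N)
    (c₀ : Fin (n + 1) → Option (Fin s.NC)) (r : Free c₀ → Fin s.NT) :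
    hSN s b c c₀ (fun j => s.uT (r j)) = hmlN s.e b c fun p => s.es (comb c₀ r p) := by
  rw [hSN_apply]
  congr 1
  funext p
  by_cases h : c₀ p = none
  · rw [dif_pos h, comb_none r ⟨p, h⟩]
    rfl
  · obtain ⟨i, hi⟩ := Option.ne_none_iff_exists'.1 h
    rw [dif_neg h, comb_some r hi, fixv_some hi]
    rfl

variable {Γ : Type w} [Group Γ] {χ : Γ →* W.Kˣ} {ρ : Γ →* (W.H P.X ≃ₐ[W.K] W.H P.X)}
  {σ : Γ →* (N →ₗ[W.K] N)}
  {ν : Γ →* (W.H (nest ops n fun _ => P).X ≃ₐ[W.K] W.H (nest ops n fun _ => P).X)}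

include hb in
/-- **Equivariance.** -/
theorem hSN_eqv (hG : IsGalois W χ P.X ρ)
    (hP : ∀ g p a, ν g (W.map (prj ops n (fun _ => P) p) a) =
      W.map (prj ops n (fun _ => P) p) (ρ g a))
    {c : W.H (nest ops n fun _ => P).X ⊗[W.K] N} {j : ℕ} {Δ : Subgroup Γ} (hΔ : Δ.FiniteIndex)
    (hc : ∀ g ∈ Δ, TensorProduct.map (ν g).toLinearMap (σ g) c = (χ g : W.K) ^ j • c)
    (c₀ : Fin (n + 1) → Option (Fin s.NC)) :
    Eqv (rhoT hG) (twistN (lamb χ s c₀ j) σ) (hSN s b c c₀) := by
  obtain ⟨Δ', hΔ', hfix⟩ := exists_fix hG s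
  refine ⟨Δ ⊓ Δ', inferInstance, fun g hg v => ?_⟩
  have hχ : (χ g : W.K) ≠ 0 := Units.ne_zero _
  set V : Fin (n + 1) → W.H P.X := fun p =>
    if h : c₀ p = none then (v ⟨p, h⟩ : W.H P.X) else fixv s c₀ ⟨p, h⟩ with hV
  have h1 : (fun p => if h : c₀ p = none then ((rhoT hG g (v ⟨p, h⟩) : transcendental W P.X) :
      W.H P.X) else fixv s c₀ ⟨p, h⟩) = fun p => ((χ g : W.K) ^ fixw s c₀ p)⁻¹ • ρ g (V p) := by
    funext p
    by_cases h : c₀ p = none
    · rw [dif_pos h, hV]
      beta_reduce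
      rw [dif_pos h, fixw, h, rhoT_apply]
      simp
    · obtain ⟨i, hi⟩ := Option.ne_none_iff_exists'.1 h
      rw [dif_neg h, hV]
      beta_reduce
      rw [dif_neg h, fixv_some hi, uC_act hG s (hfix g hg.2), fixw, hi, smul_smul]
      change _ = (((χ g : W.K) ^ (P.X.dim - s.jC i))⁻¹ * (χ g : W.K) ^ (P.X.dim - s.jC i)) •
        (s.uC i : W.H P.X)
      rw [inv_mul_cancel₀ (pow_ne_zero _ hχ), one_smul]
  rw [hSN_apply, h1, MultilinearMap.map_smul_univ]
  have h2 : c = ((χ g : W.K) ^ j)⁻¹ • TensorProduct.map (ν g).toLinearMap (σ g) c := by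
    rw [hc g hg.1, smul_smul, inv_mul_cancel₀ (pow_ne_zero _ hχ), one_smul]
  have h3 : hmlN s.e b c (fun p => ρ g (V p)) =
      (((χ g : W.K) ^ j)⁻¹ * ((χ g : W.K) ^ P.X.dim) ^ (n + 1)) • σ g (hmlN s.e b c V) := by
    conv_lhs => rw [h2]
    rw [hmlN_smul hb, hmlN_equiv hb (bil_act hG g) (hP g), smul_smul]
  rw [h3, twistN_apply, lamb_apply, hSN_apply, smul_smul]
  congr 1
  push_cast
  ring

include hb in
/-- the coordinates at the free positions are invariant -/
theorem gen_freeN (hDX : HomEqNum W P.X) (hmid : transcendental W P.X ≤ W.gr P.X P.X.dim)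
    (hG : IsGalois W χ P.X ρ)
    (hP : ∀ g p a, ν g (W.map (prj ops n (fun _ => P) p) a) =
      W.map (prj ops n (fun _ => P) p) (ρ g a))
    (hirr : StronglyIrreducible ρ (transcendental W P.X)) {g : Γ} (hχ : χ g = 1) (hσ : σ g = 1)
    (hPL : PicardLefschetz W P.X (ρ g))
    (hK : Even P.X.dim → FewRoots W.K ∧ n + 1 < Module.finrank W.K (transcendental W P.X))
    {c : W.H (nest ops n fun _ => P).X ⊗[W.K] N} {j : ℕ} {Δ : Subgroup Γ} (hΔ : Δ.FiniteIndex)
    (hc : ∀ g ∈ Δ, TensorProduct.map (ν g).toLinearMap (σ g) c = (χ g : W.K) ^ j • c)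
    (c₀ : Fin (n + 1) → Option (Fin s.NC)) :
    (fun r : Free c₀ → Fin s.NT => hmlN s.e b c fun p => s.es (comb c₀ r p)) ∈
      Pool.Agent.TH125.Nod.Gen (fun _ : Fin s.NT => ())
        (Matrix.of fun i j => bil W P.X (s.uT i) (s.uT j)) (fun _ : Free c₀ => ()) := by
  obtain ⟨δ, hδ, hδ0, x, hx, hgx⟩ := hPL
  have heven : (-1 : ℤ) ^ P.X.dim = 1 → Even P.X.dim := by
    intro h
    by_contra h'
    rw [(Nat.not_even_iff_odd.1 h').neg_one_pow] at h
    exact absurd h (by decide)
  have h1 := gen_mem (S := Free c₀) (J := Fin s.NT) (s := (-1) ^ P.X.dim)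
    (μ := fun g => (χ g : W.K) ^ P.X.dim) (B := rform W P.X (transcendental W P.X))
    (neg_one_pow_eq_or ℤ _)
    (fun a b => by
      rw [rform_apply, rform_apply, trans_symm hmid a.2 b.2]
      push_cast
      rfl)
    (trans_nondeg hDX) (fun g => pow_ne_zero _ (Units.ne_zero _))
    (fun g a b => bil_act hG g a b) (SI_rhoT hG hirr) (g := g) (δ := ⟨δ, hδ⟩) (c := x)
    (fun h => hδ0 (congrArg Subtype.val h)) hx
    (fun t => Subtype.ext (hgx t t.2))
    (by rw [hχ, Units.val_one, one_pow])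
    (σ := twistN (lamb χ s c₀ j) σ)
    (by
      apply LinearMap.ext
      intro z
      rw [twistN_apply, lamb_apply, hχ, hσ]
      simp)
    (fun h => ⟨(hK (heven h)).1, by have := (hK (heven h)).2; omega⟩)
    (hSN_eqv hb hG hP hΔ hc c₀) s.uT
    (fun h => by
      have h2 := (hK (heven h)).2
      rw [Module.finrank_eq_card_basis s.uT] at h2
      refine lt_of_le_of_lt (Fintype.card_subtype_le _) ?_
      rwa [Fintype.card_fin])
  have h2 : (fun r : Free c₀ → Fin s.NT => hSN s b c c₀ fun j => s.uT (r j)) =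
      fun r : Free c₀ → Fin s.NT => hmlN s.e b c fun p => s.es (comb c₀ r p) := by
    funext r
    exact hSN_comb c c₀ r
  rw [← h2]
  exact h1

/-- the tensor products of the classes `Mq` with arbitrary elements of `N` -/
noncomputable def TgtN (s : SB W P.X) (n : ℕ) (N : Type v) [AddCommGroup N] [Module W.K N] :
    Submodule W.K (W.H (nest ops n fun _ => P).X ⊗[W.K] N) :=
  Submodule.span W.K {x | ∃ S i m, ∃ w : N, Mq s (prj ops n fun _ => P) S i m ∧
    x = m ⊗ₜ[W.K] w}

include hb in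
/-- **The structure of the semi-invariant elements.** -/
theorem mem_TgtN (hDX : HomEqNum W P.X) (hmid : transcendental W P.X ≤ W.gr P.X P.X.dim)
    (hG : IsGalois W χ P.X ρ)
    (hP : ∀ g p a, ν g (W.map (prj ops n (fun _ => P) p) a) =
      W.map (prj ops n (fun _ => P) p) (ρ g a))
    (hirr : StronglyIrreducible ρ (transcendental W P.X)) {g : Γ} (hχ : χ g = 1) (hσ : σ g = 1)
    (hPL : PicardLefschetz W P.X (ρ g))
    (hK : Even P.X.dim → FewRoots W.K ∧ n + 1 < Module.finrank W.K (transcendental W P.X))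
    {c : W.H (nest ops n fun _ => P).X ⊗[W.K] N} {j : ℕ} {Δ : Subgroup Γ} (hΔ : Δ.FiniteIndex)
    (hc : ∀ g ∈ Δ, TensorProduct.map (ν g).toLinearMap (σ g) c = (χ g : W.K) ^ j • c) :
    c ∈ TgtN (ops := ops) s n N := by
  rw [expandF b c, sum_patterns]
  refine Submodule.sum_mem _ fun c₀ _ => ?_
  have h1 := gen_freeN hb hDX hmid hG hP hirr hχ hσ hPL hK hΔ hc c₀
  have h2 : ∀ F ∈ Pool.Agent.TH125.Nod.Gen (fun _ : Fin s.NT => ())
      (Matrix.of fun i j => bil W P.X (s.uT i) (s.uT j)) (fun _ : Free c₀ => ()),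
      ∑ r : Free c₀ → Fin s.NT, b (comb c₀ r) ⊗ₜ[W.K] (F r : N) ∈
        TgtN (ops := ops) s n N := by
    intro F hF
    induction hF using Submodule.span_induction with
    | mem F hF =>
      obtain ⟨m, e, w, rfl⟩ := hF
      obtain ⟨ε, S, i, x, hx, h3⟩ := mq_sum (s := s) (π := prj ops n fun _ => P) hmid e
      have h4 : ∑ r : Free c₀ → Fin s.NT, b (comb c₀ r) ⊗ₜ[W.K]
          (Pool.Agent.TH125.Nod.gen (fun _ : Fin s.NT => ())
            (Matrix.of fun i j => bil W P.X (s.uT i) (s.uT j)) (fun _ : Free c₀ => ()) e w r) =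
          (ε : W.K) • (x ⊗ₜ[W.K] w) := by
        rw [TensorProduct.smul_tmul', ← h3, TensorProduct.sum_tmul]
        refine Finset.sum_congr rfl fun r _ => ?_
        rw [Pool.Agent.TH125.Nod.gen, if_pos (fun _ => rfl), TensorProduct.tmul_smul,
          TensorProduct.smul_tmul', hb]
        rfl
      rw [h4]
      exact Submodule.smul_mem _ _ (Submodule.subset_span ⟨S, i, x, w, hx, rfl⟩)
    | zero =>
      simp only [Pi.zero_apply, TensorProduct.tmul_zero, Finset.sum_const_zero]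
      exact Submodule.zero_mem _
    | add F F' _ _ hF hF' =>
      simp only [Pi.add_apply, TensorProduct.tmul_add, Finset.sum_add_distrib]
      exact Submodule.add_mem _ hF hF'
    | smul x F _ hF =>
      simp only [Pi.smul_apply, TensorProduct.tmul_smul]
      rw [← Finset.smul_sum]
      exact Submodule.smul_mem _ _ hF
  have h3 := h2 _ h1
  simp only [coordN_eq hb]
  exact h3

end

end Pool.Agent.Hx88.NS
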