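import Pool.Agent.Hx88.NS.Defs
import Pool.Agent.Hx88.NS.Str
import Pool.Agent.Hx88.NS.Opens

/-!
# Powers
-/

set_option autoImplicit false
set_option linter.unusedSectionVars false

open CategoryTheory AlgebraicGeometry
open scoped TensorProduct

universe u v w

namespace Pool.Agent.Hx88.NS

open Pool.Agent.H914 Pool.Agent.H914.VarClass Pool.Agent.H914.VarClass.Obj
  Pool.Agent.H914.WeilCohomology Pool.Agent.H281R3.HT Pool.Agent.TH125.Gal Pool.Agent.N179.TL
  Pool.Agent.N179.FG Pool.Agent.N179.FO Pool.Agent.W552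

variable {k : Type u} [Field k] {𝒱 : VarClass k} {ops : CycleOps 𝒱}
  {W : WeilCohomology.{u, v} ops} {Γ : Type w} [Group Γ] {χ : Γ →* W.Kˣ}

section

variable {P : Polarized 𝒱} {n : ℕ} {s : SB W P.X} {ρ : Γ →* (W.H P.X ≃ₐ[W.K] W.H P.X)}
  {ν ν' : Γ →* (W.H (nest ops n fun _ => P).X ≃ₐ[W.K] W.H (nest ops n fun _ => P).X)}

/-- the action on a power is unique -/
theorem act_unique
    (hP : ∀ g p a, ν g (W.map (prj ops n (fun _ => P) p) a) =
      W.map (prj ops n (fun _ => P) p) (ρ g a))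
    (hP' : ∀ g p a, ν' g (W.map (prj ops n (fun _ => P) p) a) =
      W.map (prj ops n (fun _ => P) p) (ρ g a)) : ν = ν' := by
  obtain ⟨b, hb⟩ := exists_monoBasis (ops := ops) P (Module.finBasis W.K (W.H P.X)) n
  apply MonoidHom.ext
  intro g
  apply AlgEquiv.ext
  intro x
  have h1 : (ν g).toLinearMap = (ν' g).toLinearMap := by
    refine b.ext fun r => ?_
    change ν g (b r) = ν' g (b r)
    rw [hb, act_mono (hP g), act_mono (hP' g)]
  exact LinearMap.congr_fun h1 x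

/-- an element which acts trivially on the factor acts trivially on the power -/
theorem act_power_one
    (hP : ∀ g p a, ν g (W.map (prj ops n (fun _ => P) p) a) =
      W.map (prj ops n (fun _ => P) p) (ρ g a)) {g : Γ} (hg : ρ g = 1) : ν g = 1 := by
  obtain ⟨b, hb⟩ := exists_monoBasis (ops := ops) P (Module.finBasis W.K (W.H P.X)) n
  apply AlgEquiv.ext
  intro x
  have h1 : (ν g).toLinearMap = LinearMap.id := by
    refine b.ext fun r => ?_
    change ν g (b r) = b r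
    rw [hb, act_mono (hP g), hg]
    rfl
  exact LinearMap.congr_fun h1 x

/-- the classes `Mq` are semi-invariant -/
theorem mq_actN (hmid : transcendental W P.X ≤ W.gr P.X P.X.dim) (hG : IsGalois W χ P.X ρ)
    (hP : ∀ g p a, ν g (W.map (prj ops n (fun _ => P) p) a) =
      W.map (prj ops n (fun _ => P) p) (ρ g a)) {g : Γ}
    (hg : ∀ i, ρ g (s.bC i) = (χ g : W.K) ^ s.jC i • (s.bC i : W.H P.X))
    {S : Finset (Fin (n + 1))} {i : ℕ} {m : W.H (nest ops n fun _ => P).X}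
    (h : Mq s (prj ops n fun _ => P) S i m) :
    ν g m = (χ g : W.K) ^ i • m := by
  induction h with
  | one => rw [map_one, pow_zero, one_smul]
  | single l _ _ ih =>
    rw [map_mul, ih, hP g, hg, map_smul, smul_mul_smul_comm, pow_add]
  | @pair S i c p q _ _ _ _ ih =>
    rw [map_mul, ih, pow_add, ← smul_mul_smul_comm]
    congr 1
    have h1 : W.map (Obj.lift (prj ops n (fun _ => P) p)
        (prj ops n (fun _ => P) q)) (dQ s) = (-1 : W.K) ^ P.X.dim • ∑ i,
        (W.map (prj ops n (fun _ => P) p)).toLinearMap (s.bT i) *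
        (W.map (prj ops n (fun _ => P) q)).toLinearMap (s.uT i) := by
      rw [dQ_eq hmid, map_smul, dT, map_sum]
      congr 1
      refine Finset.sum_congr rfl fun i _ => ?_
      rw [map_mul, ← W.map_comp, ← W.map_comp, Obj.lift_fst, Obj.lift_snd]
      rfl
    rw [h1, map_smul, smul_comm, ← dT_act hG s g]
    congr 1
    rw [map_sum]
    refine Finset.sum_congr rfl fun i _ => ?_
    rw [map_mul]
    exact congrArg₂ (· * ·) (hP g p _) (hP g q _)

end

/-- `V` is the product of `n + 1` copies of `X`, with an action on the cohomology which is compatible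
with the projections to the factors. -/
def IsPow (X : GVar W Γ) (n : ℕ) (V : GVar W Γ) : Prop :=
  ∃ ν : Γ →* (W.H (nest ops n fun _ => (⟨X.X, 0⟩ : Polarized 𝒱)).X ≃ₐ[W.K]
      W.H (nest ops n fun _ => (⟨X.X, 0⟩ : Polarized 𝒱)).X),
    V = ⟨(nest ops n fun _ => (⟨X.X, 0⟩ : Polarized 𝒱)).X, ν⟩ ∧
    ∀ g p a, ν g (W.map (prj ops n (fun _ => (⟨X.X, 0⟩ : Polarized 𝒱)) p) a) =
      W.map (prj ops n (fun _ => (⟨X.X, 0⟩ : Polarized 𝒱)) p) (X.act g a)

/-- the compatibility with the projections -/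
theorem IsPower.elim {X V : GVar W Γ} {n : ℕ} (h : IsPower X n V) : IsPow X n V := by
  induction h with
  | one =>
    refine ⟨X.act, rfl, fun g p a => ?_⟩
    obtain rfl : p = 0 := Fin.eq_zero p
    have h1 : ∀ a, W.map (prj ops 0 (fun _ => (⟨X.X, 0⟩ : Polarized 𝒱)) 0) a = a :=
      fun a => W.map_id X.X a
    exact (congrArg (X.act g) (h1 a)).trans (h1 (X.act g a)).symm
  | @succ n V V' _ hP ih =>
    obtain ⟨ν, rfl, hν⟩ := ih
    obtain ⟨υ, h1, h2⟩ := hP
    refine ⟨υ, rfl, fun g p => ?_⟩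
    refine Fin.cases ?_ (fun i => ?_) p
    · intro a
      exact h1 g a
    · intro a
      have h4 : ∀ a, W.map (prj ops (n + 1) (fun _ => (⟨X.X, 0⟩ : Polarized 𝒱)) i.succ) a =
          W.map (snd X.X (nest ops n fun _ => (⟨X.X, 0⟩ : Polarized 𝒱)).X)
            (W.map (prj ops n (fun _ => (⟨X.X, 0⟩ : Polarized 𝒱)) i) a) :=
        fun a => W.map_comp _ _ a
      have h5 : υ g (W.map (snd X.X (nest ops n fun _ => (⟨X.X, 0⟩ : Polarized 𝒱)).X)
          (W.map (prj ops n (fun _ => (⟨X.X, 0⟩ : Polarized 𝒱)) i) a)) =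
          W.map (snd X.X (nest ops n fun _ => (⟨X.X, 0⟩ : Polarized 𝒱)).X)
            (ν g (W.map (prj ops n (fun _ => (⟨X.X, 0⟩ : Polarized 𝒱)) i) a)) := h2 g _
      rw [hν g i a] at h5
      exact (congrArg (υ g) (h4 a)).trans (h5.trans (h4 (X.act g a)).symm)

theorem IsPower.triv {X V : GVar W Γ} {n : ℕ} (h : IsPower X n V) {g : Γ}
    (hg : TrivAct X.act g) : TrivAct V.act g := by
  obtain ⟨ν, rfl, hν⟩ := h.elim
  exact trivAct.2 (act_power_one hν (trivAct.1 hg))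

/-- **The splitting of the semi-invariant elements for powers.** -/
theorem IsPower.splits {X V : GVar W Γ} {n : ℕ} (h : IsPower X n V)
    (hX : IsGaloisAct χ (W.gr X.X) X.X.dim (W.tr X.X) (algClasses W X.X) X.act)
    (hDX : HomEqNum W X.X) (hmid : transcendental W X.X ≤ W.gr X.X X.X.dim)
    (hirr : IrredAct X.act (transcendental W X.X)) {g : Γ}
    (hPL : PLAct (W.tr X.X) (transcendental W X.X) X.act g) (hχ : χ g = 1)
    (hK : Even X.X.dim → FewRoots W.K ∧ n + 1 < transRank W X.X) :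
    ∃ A : Set (W.H V.X), A ⊆ algSpan W V.X ∧ SemiAlg χ V A ∧
      ∀ (N : Type v) [AddCommGroup N] [Module W.K N] (σ : Γ →* (N →ₗ[W.K] N)), σ g = 1 →
        Splits χ V A σ := by
  obtain ⟨ν, rfl, hν⟩ := h.elim
  obtain ⟨s⟩ := exists_SB hDX
  obtain ⟨Δ, hΔ, hfix⟩ := exists_fix (isGalois hX) s
  obtain ⟨b, hb⟩ := exists_monoBasis (ops := ops) (⟨X.X, 0⟩ : Polarized 𝒱) s.e n
  have halg : ∀ m ∈ {m | ∃ S i, Mq s (prj ops n fun _ => (⟨X.X, 0⟩ : Polarized 𝒱)) S i m},
      m ∈ algSpan W (nest ops n fun _ => (⟨X.X, 0⟩ : Polarized 𝒱)).X := by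
    rintro m ⟨S, i, hm⟩
    exact hm.alg hDX hmid
  refine ⟨{m | ∃ S i, Mq s (prj ops n fun _ => (⟨X.X, 0⟩ : Polarized 𝒱)) S i m}, halg, ?_, ?_⟩
  · rintro m ⟨S, i, hm⟩
    refine ⟨i, TH125.Gal.algSpan_gr (hm.alg hDX hmid) (hm.gr hmid), Δ, hΔ, fun g hg => ?_⟩
    exact mq_actN (P := ⟨X.X, 0⟩) hmid (isGalois hX) hν (hfix g hg) hm
  · intro N _ _ σ hσ d j Δ₁ hΔ₁ hd
    have h1 := mem_TgtN (P := ⟨X.X, 0⟩) hb hDX hmid (isGalois hX) hν hirr hχ hσ hPL hK hΔ₁ hd
    refine Submodule.span_mono ?_ h1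
    rintro x ⟨S, i, m, w, hm, rfl⟩
    exact ⟨m, ⟨S, i, hm⟩, w, rfl⟩

/-- a class of top degree on the power -/
theorem IsPower.pt {X V : GVar W Γ} {n : ℕ} (h : IsPower X n V) (hDX : HomEqNum W X.X)
    (h1 : (1 : W.H X.X) ≠ 0) : ∃ a ∈ Submodule.span W.K (algClasses W V.X V.X.dim),
      W.tr V.X a ≠ 0 := by
  obtain ⟨ν, rfl, hν⟩ := h.elim
  obtain ⟨a, ha, ha0⟩ := exists_pt hDX h1
  have h2 : mono (prj ops n fun _ => (⟨X.X, 0⟩ : Polarized 𝒱)) (fun _ => a) ∈
      algSpan W (nest ops n fun _ => (⟨X.X, 0⟩ : Polarized 𝒱)).X :=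
    mono_alg _ fun _ => alg_mem ha
  refine ⟨H914.proj (W.isInternal _) (2 * (nest ops n fun _ => (⟨X.X, 0⟩ : Polarized 𝒱)).X.dim)
    (mono (prj ops n fun _ => (⟨X.X, 0⟩ : Polarized 𝒱)) fun _ => a), ?_, ?_⟩
  · exact TH125.Gal.algSpan_gr (span_proj h2 _) (H914.proj_mem _ _ _)
  · have h3 := tr_proj_mul (W.one_mem (nest ops n fun _ => (⟨X.X, 0⟩ : Polarized 𝒱)).X)
      (Nat.zero_le _) (mono (prj ops n fun _ => (⟨X.X, 0⟩ : Polarized 𝒱)) fun _ => a)
    rw [mul_one, mul_one, Nat.sub_zero] at h3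
    rw [h3, tr_mono]
    exact pow_ne_zero _ ha0

/-- an element which acts trivially on the factors acts trivially on the product -/
theorem prod_triv {A B C : GVar W Γ} (h : IsProdVar A B C) {g : Γ} (hA : TrivAct A.act g)
    (hB : TrivAct B.act g) : TrivAct C.act g := by
  obtain ⟨υ, h1, h2⟩ := h
  intro c
  refine kun_ext (L := fun c => υ g c) (L' := fun c => c) (fun a b => map_add _ _ _)
    (fun _ _ => rfl) (fun a y => ?_) c
  have h3 : υ g (W.map (fst A.X B.X) a) = W.map (fst A.X B.X) (A.act g a) := h1 g a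
  have h4 : υ g (W.map (snd A.X B.X) y) = W.map (snd A.X B.X) (B.act g y) := h2 g y
  rw [map_mul, h3, h4, hA, hB]

end Pool.Agent.Hx88.NS
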