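import Pool.Agent.N179.FO.Step
import Pool.Agent.Hx88.NS.Hml

/-!
# One step: from splittings of the semi-invariant elements to the Tate conjecture for the products
# with arbitrary varieties
-/

set_option autoImplicit false
set_option linter.unusedSectionVars false

open CategoryTheory AlgebraicGeometry
open scoped TensorProduct

universe u v w

namespace Pool.Agent.Hx88.NS

open Pool.Agent.H914 Pool.Agent.H914.VarClass Pool.Agent.H914.VarClass.Obj
  Pool.Agent.H914.WeilCohomology Pool.Agent.H281R3.HT Pool.Agent.TH125.Gal Pool.Agent.N179.TL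
  Pool.Agent.N179.FG Pool.Agent.N179.FO Pool.Agent.W552

variable {k : Type u} [Field k] {𝒱 : VarClass k} {ops : CycleOps 𝒱}
  {W : WeilCohomology.{u, v} ops} {Γ : Type w} [Group Γ] {χ : Γ →* W.Kˣ}

/-- the action on `H(V) ⊗ H(U)` -/
noncomputable def sig (V : GVar W Γ) (U : AnyVar W Γ) :
    Γ →* (W.H V.X ⊗[W.K] U.M →ₗ[W.K] W.H V.X ⊗[W.K] U.M) where
  toFun := tact V.act U.act
  map_one' := by
    refine TensorProduct.ext' fun a m => ?_
    unfold tact
    rw [TensorProduct.map_tmul, map_one, map_one]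
    rfl
  map_mul' g h := by
    refine TensorProduct.ext' fun a m => ?_
    unfold tact
    rw [TensorProduct.map_tmul, map_mul, map_mul]
    rfl

theorem sig_apply (V : GVar W Γ) (U : AnyVar W Γ) (g : Γ) (x : W.H V.X ⊗[W.K] U.M) :
    sig V U g x = tact V.act U.act g x := rfl

theorem sig_one {V : GVar W Γ} {U : AnyVar W Γ} {g : Γ} (hV : TrivAct V.act g)
    (hU : U.act g = 1) : sig V U g = 1 := by
  refine TensorProduct.ext' fun a m => ?_
  rw [sig_apply, tact, TensorProduct.map_tmul, hU]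
  change V.act g a ⊗ₜ[W.K] m = _
  rw [hV a]
  rfl

/-- The elements of `H(V) ⊗ N` which are multiplied by `χ g ^ j` by the elements `g` of a subgroup of
finite index are combinations of the products of elements of `A` and elements of `N`. -/
def Splits (χ : Γ →* W.Kˣ) (V : GVar W Γ) (A : Set (W.H V.X)) {N : Type v} [AddCommGroup N]
    [Module W.K N] (σ : Γ →* (N →ₗ[W.K] N)) : Prop :=
  ∀ (d : W.H V.X ⊗[W.K] N) (j : ℕ) (Δ : Subgroup Γ), Δ.FiniteIndex →
    (∀ g ∈ Δ, TensorProduct.map (V.act g).toLinearMap (σ g) d = (χ g : W.K) ^ j • d) →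
    d ∈ Submodule.span W.K {x | ∃ m ∈ A, ∃ w : N, x = m ⊗ₜ[W.K] w}

/-- The elements of `A` are algebraic and semi-invariant. -/
def SemiAlg (χ : Γ →* W.Kˣ) (V : GVar W Γ) (A : Set (W.H V.X)) : Prop :=
  ∀ m ∈ A, ∃ i, m ∈ Submodule.span W.K (algClasses W V.X i) ∧
    ∃ Δ : Subgroup Γ, Δ.FiniteIndex ∧ ∀ g ∈ Δ, V.act g m = (χ g : W.K) ^ i • m

theorem span_gr {X : 𝒱.Obj} {i : ℕ} {m : W.H X}
    (hm : m ∈ Submodule.span W.K (algClasses W X i)) : m ∈ W.gr X (2 * i) := by
  refine (Submodule.span_le (p := W.gr X (2 * i))).2 ?_ hm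
  intro x hx
  exact alg_gr hx

/-- A finite family of homogeneous semi-invariant algebraic classes with dual homogeneous linear
forms. -/
theorem exists_frame {V : GVar W Γ} {A : Set (W.H V.X)} (hA : SemiAlg χ V A) :
    ∃ (N : ℕ) (m : Fin N → W.H V.X) (i : Fin N → ℕ) (φ : Fin N → W.H V.X →ₗ[W.K] W.K)
      (Δ : Subgroup Γ), Δ.FiniteIndex ∧
      (∀ l, m l ∈ Submodule.span W.K (algClasses W V.X (i l))) ∧
      (∀ g ∈ Δ, ∀ l, V.act g (m l) = (χ g : W.K) ^ i l • m l) ∧
      (∀ l l', φ l (m l') = if l' = l then 1 else 0) ∧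
      (∀ l a, a ≠ 2 * i l → ∀ x ∈ W.gr V.X a, φ l x = 0) ∧
      A ⊆ Submodule.span W.K (Set.range m) := by
  classical
  obtain ⟨S, hSA, hSspan, hSli⟩ := exists_linearIndependent W.K A
  have hfin : S.Finite := hSli.setFinite
  have := hfin.fintype
  let eS := Fintype.equivFin S
  have hex : ∀ l : Fin (Fintype.card S), ∃ i,
      ((eS.symm l : S) : W.H V.X) ∈ Submodule.span W.K (algClasses W V.X i) ∧
      ∃ Δ : Subgroup Γ, Δ.FiniteIndex ∧ ∀ g ∈ Δ,
        V.act g ((eS.symm l : S) : W.H V.X) = (χ g : W.K) ^ i • ((eS.symm l : S) : W.H V.X) :=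
    fun l => hA _ (hSA (eS.symm l).2)
  choose i hi Δ hΔ hact using hex
  let B := Module.Basis.extend hSli
  let φ₀ : Fin (Fintype.card S) → W.H V.X →ₗ[W.K] W.K := fun l =>
    B.coord ⟨(eS.symm l : S), Module.Basis.subset_extend hSli (eS.symm l).2⟩
  have hφ₀ : ∀ l l', φ₀ l ((eS.symm l' : S) : W.H V.X) = if l' = l then 1 else 0 := by
    intro l l'
    have h1 : ((eS.symm l' : S) : W.H V.X) =
        B ⟨(eS.symm l' : S), Module.Basis.subset_extend hSli (eS.symm l').2⟩ :=
      (Module.Basis.extend_apply_self hSli ⟨((eS.symm l' : S) : W.H V.X),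
        Module.Basis.subset_extend hSli (eS.symm l').2⟩).symm
    change B.coord _ _ = _
    rw [h1, Module.Basis.coord_apply, Module.Basis.repr_self, Finsupp.single_apply]
    congr 1
    apply propext
    rw [Subtype.mk.injEq, Subtype.ext_iff.symm, EmbeddingLike.apply_eq_iff_eq]
  refine ⟨Fintype.card S, fun l => (eS.symm l : S), i,
    fun l => φ₀ l ∘ₗ H914.proj (W.isInternal V.X) (2 * i l), ⨅ l, Δ l,
    Subgroup.finiteIndex_iInf hΔ, hi, fun g hg l => hact l g (Subgroup.mem_iInf.1 hg l), ?_, ?_, ?_⟩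
  · intro l l'
    rw [LinearMap.comp_apply]
    by_cases h : i l' = i l
    · rw [← h, H914.proj_same _ (span_gr (hi l')), hφ₀]
    · rw [H914.proj_ne _ (span_gr (hi l')) (by omega), map_zero, if_neg]
      rintro rfl
      exact h rfl
  · intro l a ha x hx
    rw [LinearMap.comp_apply, H914.proj_ne _ hx ha, map_zero]
  · intro x hx
    have h2 : (Set.range fun l : Fin (Fintype.card S) => ((eS.symm l : S) : W.H V.X)) = S := by
      ext x
      constructor
      · rintro ⟨l, rfl⟩
        exact (eS.symm l).2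
      · intro hx
        exact ⟨eS ⟨x, hx⟩, by simp⟩
    rw [h2, hSspan]
    exact Submodule.subset_span hx

section

variable {X Y : 𝒱.Obj} {M : Type v} [AddCommGroup M] [Module W.K M]

theorem theta_inj : Function.Injective (theta W X Y M) := by
  have h1 : Function.Injective ((kEquiv W X Y).symm.toLinearMap.rTensor M) :=
    (LinearEquiv.rTensor M (kEquiv W X Y).symm).injective
  exact (TensorProduct.assoc W.K (W.H X) (W.H Y) M).injective.comp h1

/-- the inverse of `theta` -/
theorem theta_mul (a : W.H X) (x : W.H Y ⊗[W.K] M) :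
    theta W X Y M ((LinearMap.mulLeft W.K (W.map (fst X Y) a)).rTensor M
      ((W.map (snd X Y)).toLinearMap.rTensor M x)) = a ⊗ₜ[W.K] x := by
  induction x using TensorProduct.induction_on with
  | zero => simp
  | tmul y m =>
    rw [LinearMap.rTensor_tmul, LinearMap.rTensor_tmul]
    exact theta_tmul a y m
  | add x y hx hy => rw [map_add, map_add, map_add, hx, hy, TensorProduct.tmul_add]

/-- coordinates -/
theorem ctrF_theta (φ : W.H X →ₗ[W.K] W.K) (c : W.H (X.prod Y) ⊗[W.K] M) :
    ctrF φ (theta W X Y M c) = (ctr (Z := Y) φ).rTensor M c := by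
  have h1 : ctrF φ ∘ₗ theta W X Y M = (ctr (Z := Y) φ).rTensor M := by
    refine lin_ext fun a y m => ?_
    rw [LinearMap.comp_apply, theta_tmul, ctrF_tmul, LinearMap.rTensor_tmul, ctr_apply,
      TensorProduct.smul_tmul']
  exact LinearMap.congr_fun h1 c

/-- the degrees of the coordinates -/
theorem ctr_hom {φ : W.H X →ₗ[W.K] W.K} {i : ℕ} (hφ : ∀ a, a ≠ 2 * i → ∀ x ∈ W.gr X a, φ x = 0)
    {a : ℕ} {z : W.H (X.prod Y)} (hz : z ∈ W.gr (X.prod Y) a) :
    ctr (Z := Y) φ z ∈
      (if 2 * i ≤ a then W.gr Y (a - 2 * i) else ⊥ : Submodule W.K (W.H Y)) := by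
  have key : ∀ z : W.H (X.prod Y), ctr (Z := Y) φ
      (H914.proj (W.isInternal (X.prod Y)) a z) ∈
      (if 2 * i ≤ a then W.gr Y (a - 2 * i) else ⊥ : Submodule W.K (W.H Y)) := by
    intro z
    refine W.kunneth_induction (p := fun z => ctr (Z := Y) φ
      (H914.proj (W.isInternal (X.prod Y)) a z) ∈
      (if 2 * i ≤ a then W.gr Y (a - 2 * i) else ⊥ : Submodule W.K (W.H Y))) ?_ ?_ z
    · intro x y hx hy
      rw [map_add, map_add]
      exact Submodule.add_mem _ hx hy
    · intro l j x hx y hy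
      have h1 : W.map (fst X Y) x * W.map (snd X Y) y ∈ W.gr (X.prod Y) (l + j) :=
        W.mul_mem (W.map_mem _ hx) (W.map_mem _ hy)
      by_cases hij : l + j = a
      · subst hij
        rw [H914.proj_same _ h1, ctr_apply]
        by_cases hi : l = 2 * i
        · subst hi
          rw [if_pos (Nat.le_add_right _ _), Nat.add_sub_cancel_left]
          exact Submodule.smul_mem _ _ hy
        · rw [hφ l hi x hx, zero_smul]
          exact Submodule.zero_mem _
      · rw [H914.proj_ne _ h1 hij, map_zero]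
        exact Submodule.zero_mem _
  have h2 := key z
  rwa [H914.proj_same _ hz] at h2

theorem ctr_deg {φ : W.H X →ₗ[W.K] W.K} {i : ℕ} (hφ : ∀ a, a ≠ 2 * i → ∀ x ∈ W.gr X a, φ x = 0)
    {grM : ℕ → Submodule W.K M} {N : ℕ}
    {c : W.H (X.prod Y) ⊗[W.K] M} (hc : c ∈ tensDeg (W.gr (X.prod Y)) grM N) :
    (ctr (Z := Y) φ).rTensor M c ∈ (if 2 * i ≤ N then tensDeg (W.gr Y) grM (N - 2 * i)
      else ⊥ : Submodule W.K (W.H Y ⊗[W.K] M)) := by
  induction hc using Submodule.span_induction with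
  | mem c hc =>
    obtain ⟨a, b, hab, z, hz, m, hm, rfl⟩ := hc
    have h1 := ctr_hom hφ hz
    rw [LinearMap.rTensor_tmul]
    by_cases ha : 2 * i ≤ a
    · rw [if_pos ha] at h1
      rw [if_pos (by omega)]
      exact Submodule.subset_span ⟨a - 2 * i, b, by omega, _, h1, m, hm, rfl⟩
    · rw [if_neg ha] at h1
      rw [(Submodule.mem_bot _).1 h1, TensorProduct.zero_tmul]
      exact Submodule.zero_mem _
  | zero => rw [map_zero]; exact Submodule.zero_mem _
  | add x y _ _ hx hy => rw [map_add]; exact Submodule.add_mem _ hx hy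
  | smul q x _ hx => rw [map_smul]; exact Submodule.smul_mem _ _ hx

end

section

variable {V Y : GVar W Γ} {U : AnyVar W Γ}
  {υ : Γ →* (W.H (V.X.prod Y.X) ≃ₐ[W.K] W.H (V.X.prod Y.X))}

theorem theta_semi (h1 : Intertwines (W.map (fst V.X Y.X)) V.act υ)
    (h2 : Intertwines (W.map (snd V.X Y.X)) Y.act υ) {j : ℕ} {g : Γ}
    {c : W.H (V.X.prod Y.X) ⊗[W.K] U.M} (hc : tact υ U.act g c = (χ g : W.K) ^ j • c) :
    TensorProduct.map (V.act g).toLinearMap (sig Y U g) (theta W V.X Y.X U.M c) =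
      (χ g : W.K) ^ j • theta W V.X Y.X U.M c := by
  rw [← map_smul, ← hc, theta_act h1 h2]
  rfl

/-- **The Tate conjecture for products with arbitrary varieties, one step.** -/
theorem step_times (h1 : Intertwines (W.map (fst V.X Y.X)) V.act υ)
    (h2 : Intertwines (W.map (snd V.X Y.X)) Y.act υ) {A : Set (W.H V.X)}
    (hA : SemiAlg χ V A) (hs : Splits χ V A (sig Y U)) (hT : TateTimes χ Y U) :
    TateTimes χ (⟨V.X.prod Y.X, υ⟩ : GVar W Γ) U := by
  obtain ⟨N, m, i, φ, Δ', hΔ', halg, hfix, hdual, hhom, hAm⟩ := exists_frame hA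
  rintro j c hcj ⟨Δ, hΔ, hc⟩
  have hc' : ∀ g ∈ Δ, tact υ U.act g c = (χ g : W.K) ^ j • c := fun g hg => by
    have h3 := hc g hg
    rw [Submodule.mem_bot, sub_eq_zero] at h3
    exact h3
  set d := theta W V.X Y.X U.M c with hd
  have hds := hs d j Δ hΔ fun g hg => theta_semi h1 h2 (hc' g hg)
  -- the expansion
  have hexp : d = ∑ l, m l ⊗ₜ[W.K] ctrF (φ l) d := by
    have key : ∀ x ∈ Submodule.span W.K {x : W.H V.X ⊗[W.K] (W.H Y.X ⊗[W.K] U.M) |
        ∃ m ∈ A, ∃ w, x = m ⊗ₜ[W.K] w}, x = ∑ l, m l ⊗ₜ[W.K] ctrF (φ l) x := by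
      intro x hx
      induction hx using Submodule.span_induction with
      | mem x hx =>
        obtain ⟨a, ha, w, rfl⟩ := hx
        obtain ⟨r, hr⟩ := (Submodule.mem_span_range_iff_exists_fun W.K).1 (hAm ha)
        have h3 : ∀ l, φ l a = r l := by
          intro l
          rw [← hr, map_sum, Finset.sum_eq_single l]
          · rw [map_smul, hdual, if_pos rfl, smul_eq_mul, mul_one]
          · intro l' _ hl
            rw [map_smul, hdual, if_neg hl, smul_zero]
          · intro h
            exact absurd (Finset.mem_univ _) h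
        conv_lhs => rw [← hr, TensorProduct.sum_tmul]
        refine Finset.sum_congr rfl fun l _ => ?_
        rw [ctrF_tmul, h3, TensorProduct.tmul_smul, TensorProduct.smul_tmul']
      | zero => simp
      | add x y _ _ hx hy =>
        conv_lhs => rw [hx, hy]
        rw [← Finset.sum_add_distrib]
        refine Finset.sum_congr rfl fun l _ => ?_
        rw [map_add, TensorProduct.tmul_add]
      | smul q x _ hx =>
        conv_lhs => rw [hx]
        rw [Finset.smul_sum]
        refine Finset.sum_congr rfl fun l _ => ?_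
        rw [map_smul, TensorProduct.tmul_smul]
    exact key d hds
  -- uniqueness
  have huni : ∀ (x : Fin N → W.H Y.X ⊗[W.K] U.M) (l : Fin N),
      ctrF (φ l) (∑ l', m l' ⊗ₜ[W.K] x l') = x l := by
    intro x l
    rw [map_sum, Finset.sum_eq_single l]
    · rw [ctrF_tmul, hdual, if_pos rfl, one_smul]
    · intro l' _ hl
      rw [ctrF_tmul, hdual, if_neg hl, zero_smul]
    · intro h
      exact absurd (Finset.mem_univ _) h
  set x : Fin N → W.H Y.X ⊗[W.K] U.M := fun l => ctrF (φ l) d with hx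
  have hcx : c = ∑ l, (LinearMap.mulLeft W.K (W.map (fst V.X Y.X) (m l))).rTensor U.M
      ((W.map (snd V.X Y.X)).toLinearMap.rTensor U.M (x l)) := by
    apply theta_inj
    rw [map_sum]
    rw [← hd]
    conv_lhs => rw [hexp]
    exact Finset.sum_congr rfl fun l _ => (theta_mul _ _).symm
  -- semi-invariance
  have hact : ∀ g ∈ Δ ⊓ Δ', ∀ l, (χ g : W.K) ^ i l • sig Y U g (x l) = (χ g : W.K) ^ j • x l := by
    intro g hg l
    have h3 := theta_semi h1 h2 (hc' g hg.1)
    rw [← hd] at h3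
    have h4 : TensorProduct.map (V.act g).toLinearMap (sig Y U g) d =
        ∑ l', m l' ⊗ₜ[W.K] ((χ g : W.K) ^ i l' • sig Y U g (x l')) := by
      conv_lhs => rw [hexp]
      rw [map_sum]
      refine Finset.sum_congr rfl fun l' _ => ?_
      rw [TensorProduct.map_tmul]
      change V.act g (m l') ⊗ₜ[W.K] _ = _
      rw [hfix g hg.2, TensorProduct.tmul_smul, TensorProduct.smul_tmul']
    have h5 := huni (fun l' => (χ g : W.K) ^ i l' • sig Y U g (x l')) l
    rw [← h4, h3, map_smul] at h5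
    exact h5.symm
  change c ∈ U.cyc (V.X.prod Y.X) j
  rw [hcx]
  refine Submodule.sum_mem _ fun l _ => ?_
  have hdeg := ctr_deg (hhom l) hcj
  rw [← ctrF_theta, ← hd] at hdeg
  change x l ∈ _ at hdeg
  by_cases hil : i l ≤ j
  · rw [if_pos (by omega), show 2 * j - 2 * i l = 2 * (j - i l) by omega] at hdeg
    have h6 : x l ∈ U.cyc Y.X (j - i l) := by
      refine hT _ _ hdeg ⟨Δ ⊓ Δ', inferInstance, fun g hg => ?_⟩
      rw [Submodule.mem_bot, sub_eq_zero]
      have h7 := hact g hg l
      have h8 : (χ g : W.K) ^ j = (χ g : W.K) ^ i l * (χ g : W.K) ^ (j - i l) := by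
        rw [← pow_add, Nat.add_sub_cancel' hil]
      rw [h8, mul_smul] at h7
      exact smul_right_injective _ (pow_ne_zero _ (Units.ne_zero (χ g))) h7
    have h9 := mul_span (U := U) (map_span (fst V.X Y.X) (halg l))
      (U.pull (snd V.X Y.X) _ _ h6)
    rwa [Nat.add_sub_cancel' hil] at h9
  · rw [if_neg (by omega), Submodule.mem_bot] at hdeg
    rw [hdeg, map_zero, map_zero]
    exact Submodule.zero_mem _

end

end Pool.Agent.Hx88.NS
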